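import Mathlib
import Pool.Agent.H3R2.ES.Asm
import Pool.Agent.H3R2.ES.Layer
import Pool.Agent.H3R2.ES.SumLow
import Pool.Agent.H3R2.ES.Sect
import Pool.Agent.Helper209.CX.C03

namespace Pool.Agent.Results.MP_c84763_mp.EigenvalueSums
open MeasureTheory FourierTransform Filter Topology
open scoped ENNReal

/-- `ℝᵈ` with the Euclidean norm -/
def Rd (d : ℕ) : Type := EuclideanSpace ℝ (Fin d)

noncomputable instance (d : ℕ) : Norm (Rd d) :=
  (inferInstance : Norm (EuclideanSpace ℝ (Fin d)))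

/-- `ℝᵈ` carries Lebesgue measure, Mathlib's `volume` -/
noncomputable instance (d : ℕ) : MeasureSpace (Rd d) :=
  (inferInstance : MeasureSpace (EuclideanSpace ℝ (Fin d)))

/-- `L²(ℝᵈ; ℂ)` -/
def L2 (d : ℕ) : Type := Lp ℂ 2 (volume : Measure (Rd d))

noncomputable instance (d : ℕ) : AddCommGroup (L2 d) :=
  (inferInstance : AddCommGroup (Lp ℂ 2 (volume : Measure (Rd d))))

noncomputable instance (d : ℕ) : Module ℂ (L2 d) :=
  (inferInstance : Module ℂ (Lp ℂ 2 (volume : Measure (Rd d))))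

/-- the function `u` -/
noncomputable def fn {d : ℕ} (u : L2 d) : Rd d → ℂ :=
  ((show Lp ℂ 2 (volume : Measure (Rd d)) from u) : Rd d → ℂ)

/-- the unitary Fourier transform on `L²(E)`, `û(ξ) = ∫ e^{-2πi x·ξ} u(x) dx` -/
noncomputable def fourierE (E : Type) [NormedAddCommGroup E] [InnerProductSpace ℝ E]
    [FiniteDimensional ℝ E] [MeasurableSpace E] [BorelSpace E]
    (u : Lp ℂ 2 (volume : Measure E)) : Lp ℂ 2 (volume : Measure E) := 𝓕 u

/-- the unitary Fourier transform on `L²(ℝᵈ)` -/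
noncomputable def fourier {d : ℕ} (u : L2 d) : L2 d := fourierE (EuclideanSpace ℝ (Fin d)) u

/-- the function `û` -/
noncomputable def hat {d : ℕ} (u : L2 d) : Rd d → ℂ := fn (fourier u)

/-- `u ∈ H¹(ℝᵈ)`: `|ξ| û ∈ L²` -/
def InH1 {d : ℕ} (u : L2 d) : Prop := MemLp (fun ξ : Rd d => (‖ξ‖ : ℂ) * hat u ξ) 2 volume

/-- `∫ ∇u · conj ∇φ = ∫ (2π|ξ|)² û conj φ̂` -/
noncomputable def dirichlet {d : ℕ} (u φ : L2 d) : ℂ :=
  ∫ ξ : Rd d, (((2 * Real.pi * ‖ξ‖) ^ 2 : ℝ) : ℂ) * hat u ξ * (starRingEnd ℂ) (hat φ ξ)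

/-- `W u conj φ` -/
noncomputable def potential {d : ℕ} (W : Rd d → ℂ) (u φ : L2 d) (x : Rd d) : ℂ :=
  W x * fn u x * (starRingEnd ℂ) (fn φ x)

/-- the inner product `∫ f conj φ` -/
noncomputable def pairing {d : ℕ} (f φ : L2 d) : ℂ := ∫ x, fn f x * (starRingEnd ℂ) (fn φ x)

/-- `u ∈ D(H)` and `H u = f`, where `H = -h²Δ + W` is the operator of the form
`h² ∫ ∇u · conj ∇φ + ∫ W u conj φ` on `H¹(ℝᵈ)` -/
def IsHu {d : ℕ} (h : ℝ) (W : Rd d → ℂ) (u f : L2 d) : Prop :=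
  InH1 u ∧ ∀ φ : L2 d, InH1 φ → Integrable (potential W u φ) volume ∧
    ((h ^ 2 : ℝ) : ℂ) * dirichlet u φ + ∫ x, potential W u φ x = pairing f φ

/-- `u` is a generalised eigenvector for `E` (or `0`): `(H - E)ⁿ u = 0` for some `n` -/
def IsGen {d : ℕ} (h : ℝ) (W : Rd d → ℂ) (E : ℂ) (u : L2 d) : Prop :=
  ∃ (n : ℕ) (c : ℕ → L2 d), c 0 = u ∧ c n = 0 ∧ ∀ i < n, IsHu h W (c i) (c (i + 1) + E • c i)

/-- the generalised eigenspace of `E` -/
noncomputable def genSpace {d : ℕ} (h : ℝ) (W : Rd d → ℂ) (E : ℂ) : Submodule ℂ (L2 d) :=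
  Submodule.span ℂ {u | IsGen h W E u}

/-- the algebraic multiplicity of `E` (`0` if `E` is not an eigenvalue) -/
noncomputable def algMult {d : ℕ} (h : ℝ) (W : Rd d → ℂ) (E : ℂ) : ℕ :=
  Module.finrank ℂ (genSpace h W E)

/-- `δ(E)`, the distance from `E` to the half-line `[0,∞)` -/
noncomputable def delta (E : ℂ) : ℝ := Metric.infDist E {z : ℂ | 0 ≤ z.re ∧ z.im = 0}

/-- `S_{γ,σ}(W,h) = ∑_j |E_j|^{-σ} δ(E_j)^{γ+σ}`, each eigenvalue `E` of `-h²Δ + W` counted with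
its algebraic multiplicity -/
noncomputable def eigSum {d : ℕ} (h : ℝ) (W : Rd d → ℂ) (γ σ : ℝ) : ℝ≥0∞ :=
  ∑' E : ℂ, (algMult h W E : ℝ≥0∞) * ENNReal.ofReal (‖E‖ ^ (-σ) * delta E ^ (γ + σ))

/-- the potential: `V(x) = log (1 / (1 - |x|)) + i` for `|x| < 1`, and `V(x) = 0` for `|x| ≥ 1` -/
noncomputable def V {d : ℕ} (x : Rd d) : ℂ :=
  if ‖x‖ < 1 then ((Real.log (1 / (1 - ‖x‖)) : ℝ) : ℂ) + Complex.I else 0

theorem V_aux {d : ℕ} (x : Helper209.CX.Ed d) :
    (if ‖x‖ < 1 then ((Real.log (1 / (1 - ‖x‖)) : ℝ) : ℂ) + Complex.I else 0) =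
      H3R2.ES.Vb x := by
  unfold H3R2.ES.Vb
  by_cases hx : ‖x‖ < 1
  · rw [if_pos hx, H3R2.ES.Ub_in x hx, Set.indicator_of_mem (by
      rw [mem_ball_zero_iff]; exact hx), mul_one, one_div, Real.log_inv]
  · rw [if_neg hx, H3R2.ES.Ub_out x (not_lt.1 hx), Set.indicator_of_notMem (by
      rw [mem_ball_zero_iff]; exact hx)]
    simp

theorem V_eq {d : ℕ} : (V : Rd d → ℂ) = H3R2.ES.Vb := funext fun x => V_aux (d := d) x

/-- In every dimension `d ≥ 1` the compactly supported potential `V`, which lies in `Lᵖ` for all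
finite `p` and gives an m-sectorial operator whose eigenvalues off `[0,∞)` have finite algebraic
multiplicity, has `hᵈ S_{γ,σ}(V,h) → ∞` as `h → 0` for all `γ > 0` and `0 ≤ σ ≤ d/2`. -/
theorem result (d : ℕ) (hd : 1 ≤ d) :
    (∀ p : ℝ≥0∞, p ≠ ⊤ → MemLp (V : Rd d → ℂ) p volume) ∧
    (∀ h : ℝ, 0 < h → h ≤ 1 →
      (∀ u f : L2 d, IsHu h V u f →
        0 ≤ (pairing f u).re ∧ 0 ≤ (pairing f u).im ∧ (pairing f u).im ≤ (pairing u u).re) ∧
      (∀ f : L2 d, ∃ u : L2 d, IsHu h V u (f - u)) ∧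
      ∀ E : ℂ, 0 < delta E → Module.Finite ℂ (genSpace h (V : Rd d → ℂ) E)) ∧
    ∀ γ σ : ℝ, 0 < γ → 0 ≤ σ → σ ≤ (d : ℝ) / 2 →
      Tendsto (fun h : ℝ => ENNReal.ofReal (h ^ d) * eigSum h (V : Rd d → ℂ) γ σ)
        (𝓝[>] 0) (𝓝 ⊤) := by
  have hV := V_eq (d := d)
  have hfin0 : ∀ h : ℝ, 0 < h → ∀ (G : ℂ → Submodule ℂ (L2 d)),
      (∀ E u, u ∈ G E ↔ IsGen h V E u) → ∀ E : ℂ, 0 < delta E → Module.Finite ℂ (G E) := by
    intro h hh G hG E hE
    obtain ⟨C, hC, H⟩ := Helper209.CX.final_D d hd (3 / 4) ((d : ℝ) / 2 + 1) (by norm_num)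
      (by norm_num) (by linarith)
    have hmem : MemLp (V : Rd d → ℂ) (ENNReal.ofReal (3 / 4 + (d : ℝ) / 2)) volume := by
      rw [hV]
      exact H3R2.ES.Vb_memLp hd _ ENNReal.ofReal_ne_top
    have key := Helper209.CX.K30.gen_bound
      { carrier := {p : L2 d × L2 d | Helper209.CX.IsHu h V p.1 p.2}
        add_mem' := fun {a b} ha hb => Helper209.CX.K31.isHu_add h V a.1 b.1 a.2 b.2 ha hb
        zero_mem' := Helper209.CX.K31.isHu_zero_zero h V
        smul_mem' := fun c a ha => Helper209.CX.K31.isHu_smul h V c a.1 a.2 ha }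
      (fun f hf => Helper209.CX.K31.isHu_zero h V f hf)
      (fun E => ‖E‖ ^ (-((d : ℝ) / 2 + 1)) * delta E ^ (3 / 4 + ((d : ℝ) / 2 + 1)))
      (fun E => mul_nonneg (Real.rpow_nonneg (norm_nonneg _) _)
        (Real.rpow_nonneg Metric.infDist_nonneg _))
      (C * h ^ (-(d : ℝ)) * ∫ x, ‖(V x : ℂ)‖ ^ (3 / 4 + (d : ℝ) / 2))
      (fun N u A hli hu => H h hh V hmem N u A hli hu) G hG
    refine key.1 E ?_
    have hE0 : E ≠ 0 := by
      rintro rfl
      have : delta 0 = 0 := Metric.infDist_zero_of_mem (by simp)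
      exact absurd hE (by rw [this]; exact lt_irrefl 0)
    exact mul_pos (Real.rpow_pos_of_pos (norm_pos_iff.2 hE0) _) (Real.rpow_pos_of_pos hE _)
  have hG0 : ∀ h : ℝ, ∀ E : ℂ, ∀ u : L2 d, u ∈ genSpace h V E ↔ IsGen h V E u := by
    intro h E u
    obtain ⟨G, hG⟩ := Helper209.CX.K30.gen_submodule
      { carrier := {p : L2 d × L2 d | Helper209.CX.IsHu h V p.1 p.2}
        add_mem' := fun {a b} ha hb => Helper209.CX.K31.isHu_add h V a.1 b.1 a.2 b.2 ha hb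
        zero_mem' := Helper209.CX.K31.isHu_zero_zero h V
        smul_mem' := fun c a ha => Helper209.CX.K31.isHu_smul h V c a.1 a.2 ha } E
    have h1 : {u | IsGen h V E u} = (G : Set (L2 d)) := by
      ext u
      exact (hG u).symm
    rw [genSpace, h1, Submodule.span_eq]
    exact hG u
  refine ⟨fun p hp => ?_, fun h hh hh1 => ⟨fun u f huf => ?_, fun f => ?_, fun E hE => ?_⟩, ?_⟩
  · rw [hV]
    exact H3R2.ES.Vb_memLp hd p hp
  · have e0 : ∀ f u : Helper209.CX.L2d d, (∫ x, f x * (starRingEnd ℂ) (u x)) = inner ℂ u f := by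
      intro f u
      rw [L2.inner_def]
      refine integral_congr_ae (Eventually.of_forall fun x => ?_)
      simp only [RCLike.inner_apply]
    have e1 : pairing f u = inner ℂ (show Helper209.CX.L2d d from u)
        (show Helper209.CX.L2d d from f) := e0 f u
    have e2 : (pairing u u).re = ‖(show Helper209.CX.L2d d from u)‖ ^ 2 := by
      have e3 : pairing u u = inner ℂ (show Helper209.CX.L2d d from u)
        (show Helper209.CX.L2d d from u) := e0 u u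
      rw [e3]
      exact inner_self_eq_norm_sq (𝕜 := ℂ) _
    rw [e2, e1]
    exact H3R2.ES.numrange h u f (by rw [hV] at huf; exact huf)
  · rw [hV]
    exact H3R2.ES.surj hd h hh hh1 f
  · exact hfin0 h hh (genSpace h V) (hG0 h) E hE
  · intro γ σ hγ hσ0 hσ
    obtain ⟨c, hc, H⟩ := H3R2.ES.window d hd
    refine H3R2.ES.blowup d hd γ σ hγ hσ0 hσ
      (fun h E => ((algMult h (V : Rd d → ℂ) E : ℕ) : ℝ≥0∞)) c hc ?_
    intro Λ0 hΛ0
    filter_upwards [H Λ0 hΛ0, self_mem_nhdsWithin] with h h1 h2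
    have hh : (0 : ℝ) < h := h2
    obtain ⟨N, u, A, hu, hA, hroots, hN⟩ := h1
    have h3 := H3R2.ES.sum_lower
      { carrier := {p : L2 d × L2 d | Helper209.CX.IsHu h V p.1 p.2}
        add_mem' := fun {a b} ha hb => Helper209.CX.K31.isHu_add h V a.1 b.1 a.2 b.2 ha hb
        zero_mem' := Helper209.CX.K31.isHu_zero_zero h V
        smul_mem' := fun c a ha => Helper209.CX.K31.isHu_smul h V c a.1 a.2 ha }
      (genSpace h V) (hG0 h) u A hu (fun j => by
        have := hA j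
        rw [← hV] at this
        exact this) {E : ℂ | ‖E‖ ≤ Λ0 + 3 ∧ 1 / 2 ≤ E.im} hroots (fun E hE =>
          hfin0 h hh (genSpace h V) (hG0 h) E (lt_of_lt_of_le (by
            have := hE.2
            linarith) (H3R2.ES.im_le_delta E)))
    refine le_trans ?_ h3
    rw [← ENNReal.ofReal_natCast]
    exact ENNReal.ofReal_le_ofReal hN

end Pool.Agent.Results.MP_c84763_mp.EigenvalueSums
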